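import Pool.Agent.Y859.SF.Stm

/-!
# Small prime factors in bounded windows
-/

set_option autoImplicit false

namespace Pool.Agent.Y930.SF

open Finset Pool.Agent.Y859.SF

/-- the number of `M < N` in a residue class, for a prime `q ≥ 5` -/
lemma card_class {q : ℕ} (hq : q.Prime) (h5 : 5 ≤ q) (e j N : ℕ) :
    ((range N).filter (fun M => q ∣ 6 * (M + j) + e)).card ≤ N / q + 1 := by
  have hq0 : 0 < q := hq.pos
  have h6 : Nat.Coprime q 6 := by
    rw [Nat.Prime.coprime_iff_not_dvd hq]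
    intro h
    have h1 : q ≤ 6 := Nat.le_of_dvd (by norm_num) h
    interval_cases q
    · omega
    · exact absurd hq (by norm_num)
  calc ((range N).filter (fun M => q ∣ 6 * (M + j) + e)).card ≤ (range (N / q + 1)).card := by
        apply Finset.card_le_card_of_injOn (fun M => M / q)
        · intro M hM
          rw [Finset.mem_coe, Finset.mem_filter, Finset.mem_range] at hM
          rw [Finset.mem_coe, Finset.mem_range]
          exact Nat.lt_succ_of_le (Nat.div_le_div_right hM.1.le)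
        · have key : ∀ M M' : ℕ, M ≤ M' → q ∣ 6 * (M + j) + e → q ∣ 6 * (M' + j) + e →
              M / q = M' / q → M = M' := by
            intro M M' hle h1 h2 h3
            have h4 : q ∣ 6 * (M' - M) := by
              have : 6 * (M' + j) + e = (6 * (M + j) + e) + 6 * (M' - M) := by omega
              rw [this] at h2
              exact (Nat.dvd_add_right h1).mp h2
            have h5 : q ∣ M' - M := h6.dvd_of_dvd_mul_left h4
            obtain ⟨c, hc⟩ := h5
            have h7 : M' = M + q * c := by omega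
            rw [h7, Nat.add_mul_div_left _ _ hq0] at h3
            have : c = 0 := by omega
            rw [h7, this]; simp
          intro M hM M' hM' h
          rw [Finset.mem_coe, Finset.mem_filter] at hM hM'
          rcases le_total M M' with hle | hle
          · exact key M M' hle hM.2 hM'.2 h
          · exact (key M' M hle hM'.2 hM.2 h.symm).symm
    _ = N / q + 1 := Finset.card_range _

/-- the sum of the counts over all windows -/
lemma sum_cnt {q : ℕ} (hq : q.Prime) (h5 : 5 ≤ q) (e J N : ℕ) :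
    ∑ M ∈ range N, cnt e J q M ≤ J * (N / q + 1) := by
  have h1 : ∀ M : ℕ, cnt e J q M ≤ ((Icc 1 J).filter (fun j => q ∣ 6 * (M + j) + e)).card := by
    intro M
    unfold cnt
    apply Finset.card_le_card_of_injOn (fun k => k - M)
    · intro k hk
      rw [Finset.mem_coe, Finset.mem_filter, Finset.mem_Ioc] at hk
      rw [Finset.mem_coe, Finset.mem_filter, Finset.mem_Icc]
      change (1 ≤ k - M ∧ k - M ≤ J) ∧ q ∣ 6 * (M + (k - M)) + e
      have h2 : M + (k - M) = k := by omega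
      rw [h2]
      exact ⟨by omega, hk.2⟩
    · intro k hk k' hk' h
      rw [Finset.mem_coe, Finset.mem_filter, Finset.mem_Ioc] at hk hk'
      have h2 : k - M = k' - M := h
      omega
  calc ∑ M ∈ range N, cnt e J q M
      ≤ ∑ M ∈ range N, ((Icc 1 J).filter (fun j => q ∣ 6 * (M + j) + e)).card :=
        Finset.sum_le_sum fun M _ => h1 M
    _ = ∑ j ∈ Icc 1 J, ((range N).filter (fun M => q ∣ 6 * (M + j) + e)).card := by
        simp only [Finset.card_filter]
        rw [Finset.sum_comm]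
    _ ≤ ∑ j ∈ Icc 1 J, (N / q + 1) := Finset.sum_le_sum fun j _ => card_class hq h5 e j N
    _ = J * (N / q + 1) := by simp

/-- Markov -/
lemma markov (N : ℕ) (f : ℕ → ℝ) (hf : ∀ M, 0 ≤ f M) {T S : ℝ} (hT : 0 < T)
    (hS : ∑ M ∈ range N, f M ≤ S) :
    (((range N).filter (fun M => T < f M)).card : ℝ) ≤ S / T := by
  rw [le_div_iff₀ hT]
  calc (((range N).filter (fun M => T < f M)).card : ℝ) * T
      = ∑ M ∈ (range N).filter (fun M => T < f M), T := by
        rw [Finset.sum_const, nsmul_eq_mul]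
    _ ≤ ∑ M ∈ (range N).filter (fun M => T < f M), f M :=
        Finset.sum_le_sum fun M hM => (Finset.mem_filter.mp hM).2.le
    _ ≤ ∑ M ∈ range N, f M :=
        Finset.sum_le_sum_of_subset_of_nonneg (Finset.filter_subset _ _) fun M _ _ => hf M
    _ ≤ S := hS

theorem t_SMA (hv : S_VAR) (hm : S_MER) : S_SMA := by
  classical
  obtain ⟨C, hC, hvar⟩ := hv
  obtain ⟨C₁, hC₁, hmer⟩ := hm
  intro ε τ hε hτ
  refine ⟨min (1 / 100) (ε * τ / 24), by positivity, min_le_left _ _, ?_⟩
  set κ : ℝ := min (1 / 100) (ε * τ / 24) with hκdef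
  have hκ0 : 0 < κ := by rw [hκdef]; positivity
  have hκ1 : κ ≤ 1 / 100 := min_le_left _ _
  have hκ2 : κ ≤ ε * τ / 24 := min_le_right _ _
  intro J₁
  obtain ⟨J, hJ1, hJpos, hJC⟩ : ∃ J : ℕ, J₁ ≤ J ∧ 1 ≤ J ∧ 36 * C / (ε * τ ^ 2) ≤ (J : ℝ) := by
    refine ⟨max J₁ (max 1 ⌈36 * C / (ε * τ ^ 2)⌉₊), le_max_left _ _,
      (le_max_left _ _).trans (le_max_right _ _), ?_⟩
    refine (Nat.le_ceil _).trans ?_
    exact_mod_cast (le_max_right _ _).trans (le_max_right _ _)
  set C₂ : ℝ := 2 * C₁ + 1 with hC₂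
  obtain ⟨X, hX1, hX2⟩ : ∃ X : ℝ, 3 * C₁ / τ ≤ X ∧ 24 * C₂ / (ε * τ) ≤ X :=
    ⟨max (3 * C₁ / τ) (24 * C₂ / (ε * τ)), le_max_left _ _, le_max_right _ _⟩
  refine ⟨J, hJ1, max 25 ⌈Real.exp X⌉₊, fun N hN e _ => ?_⟩
  have hN25 : 25 ≤ N := (le_max_left _ _).trans hN
  have hNexp : Real.exp X ≤ N := by
    refine (Nat.le_ceil _).trans ?_
    exact_mod_cast (le_max_right _ _).trans hN
  have hNR : (25 : ℝ) ≤ N := by exact_mod_cast hN25
  have hN0 : (0 : ℝ) < N := by linarith
  set L : ℝ := Real.log N with hL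
  have hLX : X ≤ L := by
    rw [hL, Real.le_log_iff_exp_le hN0]; exact hNexp
  have hL1 : 3 * C₁ / τ ≤ L := hX1.trans hLX
  have hL2 : 24 * C₂ / (ε * τ) ≤ L := hX2.trans hLX
  have hL0 : 0 < L := Real.log_pos (by linarith)
  have hJR : (1 : ℝ) ≤ J := by exact_mod_cast hJpos
  have hJ0 : (0 : ℝ) < J := by linarith
  -- the two cut points
  set z₁ : ℕ := Nat.sqrt N with hz₁
  set z₂ : ℕ := ⌊(N : ℝ) ^ (1 / 2 + κ)⌋₊ with hz₂
  have hz1sq : z₁ * z₁ ≤ N := Nat.sqrt_le N
  have hz1lt : N < (z₁ + 1) * (z₁ + 1) := Nat.lt_succ_sqrt N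
  have hz15 : 5 ≤ z₁ := by
    rw [hz₁, Nat.le_sqrt]; omega
  have hz1R : (5 : ℝ) ≤ z₁ := by exact_mod_cast hz15
  have hz1sqR : (z₁ : ℝ) ^ 2 ≤ N := by
    rw [pow_two]; exact_mod_cast hz1sq
  have hlogz1 : Real.log z₁ ≤ L / 2 := by
    have h1 : Real.log ((z₁ : ℝ) ^ 2) ≤ L := Real.log_le_log (by positivity) hz1sqR
    rw [Real.log_pow] at h1
    push_cast at h1
    linarith
  have hlogz1pos : 0 ≤ Real.log z₁ := Real.log_nonneg (by linarith)
  have hlogz1' : L / 2 - 1 ≤ Real.log z₁ := by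
    have h1 : (N : ℝ) ≤ (2 * z₁) ^ 2 := by
      have h2 : (N : ℝ) < ((z₁ : ℝ) + 1) * ((z₁ : ℝ) + 1) := by exact_mod_cast hz1lt
      nlinarith
    have h3 : L ≤ Real.log ((2 * (z₁ : ℝ)) ^ 2) := Real.log_le_log hN0 h1
    rw [Real.log_pow, Real.log_mul (by norm_num) (by positivity)] at h3
    have h4 : Real.log 2 < 0.6931471808 := Real.log_two_lt_d9
    push_cast at h3
    norm_num at h4
    linarith
  have hpow_le : (N : ℝ) ^ (1 / 2 + κ) ≤ N := by
    calc (N : ℝ) ^ (1 / 2 + κ) ≤ (N : ℝ) ^ (1 : ℝ) :=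
          Real.rpow_le_rpow_of_exponent_le (by linarith) (by linarith)
      _ = N := Real.rpow_one _
  have hz2N : z₂ ≤ N := by
    have : (z₂ : ℝ) ≤ N := (Nat.floor_le (by positivity)).trans hpow_le
    exact_mod_cast this
  have hz12 : z₁ ≤ z₂ := by
    rw [hz₂]
    apply Nat.le_floor
    have h1 : (z₁ : ℝ) ≤ Real.sqrt N := Real.le_sqrt_of_sq_le hz1sqR
    refine h1.trans ?_
    rw [Real.sqrt_eq_rpow]
    exact Real.rpow_le_rpow_of_exponent_le (by linarith) (by linarith)
  have hz2R : (5 : ℝ) ≤ z₂ := by exact_mod_cast hz15.trans hz12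
  have hlogz2 : Real.log z₂ ≤ (1 / 2 + κ) * L := by
    rw [hL, ← Real.log_rpow hN0]
    exact Real.log_le_log (by linarith) (Nat.floor_le (by positivity))
  -- the sums over primes
  have hsub : PQ z₁ ⊆ PQ z₂ := by
    unfold PQ
    exact Finset.filter_subset_filter _ (Finset.Icc_subset_Icc le_rfl hz12)
  have hmean : ∑ q ∈ PQ z₁, Real.log q / q ≤ L / 2 + C₁ := by
    have h1 := (abs_le.mp (hmer z₁ (by omega))).2
    have h2 : ∑ q ∈ PQ z₁, Real.log q / q ≤ ∑ q ∈ (Icc 1 z₁).filter Nat.Prime, Real.log q / q := by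
      apply Finset.sum_le_sum_of_subset_of_nonneg
      · unfold PQ
        exact Finset.filter_subset_filter _ (Finset.Icc_subset_Icc (by norm_num) le_rfl)
      · intro q _ _
        exact div_nonneg (Real.log_natCast_nonneg q) (Nat.cast_nonneg q)
    linarith
  have hdiff : ∑ q ∈ PQ z₂ \ PQ z₁, Real.log q / q ≤ κ * L + C₂ := by
    have h1 := (abs_le.mp (hmer z₁ (by omega))).1
    have h2 := (abs_le.mp (hmer z₂ (by omega))).2
    have h3 : ∑ q ∈ (Icc 1 z₂).filter Nat.Prime \ (Icc 1 z₁).filter Nat.Prime, Real.log q / q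
        + ∑ q ∈ (Icc 1 z₁).filter Nat.Prime, Real.log q / q
        = ∑ q ∈ (Icc 1 z₂).filter Nat.Prime, Real.log q / q :=
      Finset.sum_sdiff (Finset.filter_subset_filter _ (Finset.Icc_subset_Icc le_rfl hz12))
    have h4 : PQ z₂ \ PQ z₁ ⊆ (Icc 1 z₂).filter Nat.Prime \ (Icc 1 z₁).filter Nat.Prime := by
      intro q hq
      simp only [PQ, Finset.mem_sdiff, Finset.mem_filter, Finset.mem_Icc] at hq ⊢
      obtain ⟨⟨⟨h5, h6⟩, hp⟩, hnot⟩ := hq
      refine ⟨⟨⟨by omega, h6⟩, hp⟩, ?_⟩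
      rintro ⟨⟨_, h7⟩, _⟩
      exact hnot ⟨⟨h5, h7⟩, hp⟩
    have h5 : ∑ q ∈ PQ z₂ \ PQ z₁, Real.log q / q
        ≤ ∑ q ∈ (Icc 1 z₂).filter Nat.Prime \ (Icc 1 z₁).filter Nat.Prime, Real.log q / q :=
      Finset.sum_le_sum_of_subset_of_nonneg h4 fun q _ _ =>
        div_nonneg (Real.log_natCast_nonneg q) (Nat.cast_nonneg q)
    rw [hC₂]
    nlinarith
  -- the two parts
  set D : ℕ → ℝ := fun M => ∑ q ∈ PQ z₁, Real.log q * ((cnt e J q M : ℝ) - J / q) with hD
  set S₂ : ℕ → ℝ := fun M => ∑ q ∈ PQ z₂ \ PQ z₁, Real.log q * (cnt e J q M : ℝ) with hS₂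
  have hS₂0 : ∀ M, 0 ≤ S₂ M := fun M => Finset.sum_nonneg fun q _ =>
    mul_nonneg (Real.log_natCast_nonneg q) (Nat.cast_nonneg _)
  have hT : 0 < τ / 3 * J * L := by positivity
  -- the first exceptional set
  have hB1 : (((range N).filter (fun M => (τ / 3 * J * L) ^ 2 < D M ^ 2)).card : ℝ)
      ≤ ε / 2 * N := by
    have h1 : ∑ M ∈ range N, D M ^ 2 ≤ 2 * C * N * J * L ^ 2 := by
      refine (hvar e N J z₁ hJpos (by omega)).trans ?_
      have h2 : (Real.log z₁) ^ 2 ≤ L ^ 2 := by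
        apply pow_le_pow_left₀ hlogz1pos; linarith
      calc C * (N + (z₁ : ℝ) ^ 2) * J * Real.log z₁ ^ 2 ≤ C * (N + N) * J * L ^ 2 := by
            gcongr
        _ = 2 * C * N * J * L ^ 2 := by ring
    refine (markov N (fun M => D M ^ 2) (fun M => sq_nonneg _) (by positivity) h1).trans ?_
    rw [div_le_iff₀ (by positivity)]
    rw [div_le_iff₀ (by positivity)] at hJC
    have h3 : 0 ≤ N * J * L ^ 2 := by positivity
    calc 2 * C * N * J * L ^ 2 = (36 * C) * (N * J * L ^ 2) / 18 := by ring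
      _ ≤ (J * (ε * τ ^ 2)) * (N * J * L ^ 2) / 18 := by
          apply div_le_div_of_nonneg_right _ (by norm_num)
          exact mul_le_mul_of_nonneg_right hJC h3
      _ = ε / 2 * N * (τ / 3 * J * L) ^ 2 := by ring
  -- the second exceptional set
  have hB2 : (((range N).filter (fun M => τ / 3 * J * L < S₂ M)).card : ℝ) ≤ ε / 2 * N := by
    have h1 : ∑ M ∈ range N, S₂ M ≤ 2 * J * N * (κ * L + C₂) := by
      calc ∑ M ∈ range N, S₂ M
          = ∑ q ∈ PQ z₂ \ PQ z₁, Real.log q * ((∑ M ∈ range N, cnt e J q M : ℕ) : ℝ) := by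
            rw [hS₂]
            rw [Finset.sum_comm]
            refine Finset.sum_congr rfl fun q _ => ?_
            rw [← Finset.mul_sum]
            push_cast
            rfl
        _ ≤ ∑ q ∈ PQ z₂ \ PQ z₁, 2 * J * N * (Real.log q / q) := by
            refine Finset.sum_le_sum fun q hq => ?_
            have hq' := (Finset.mem_sdiff.mp hq).1
            simp only [PQ, Finset.mem_filter, Finset.mem_Icc] at hq'
            obtain ⟨⟨hq5, hq2⟩, hqp⟩ := hq'
            have hqR : (0 : ℝ) < q := by exact_mod_cast hqp.pos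
            have hqN : (q : ℝ) ≤ N := by exact_mod_cast hq2.trans hz2N
            have h2 : ((∑ M ∈ range N, cnt e J q M : ℕ) : ℝ) ≤ J * (N / q + 1) := by
              have h3 : ((∑ M ∈ range N, cnt e J q M : ℕ) : ℝ) ≤ ((J * (N / q + 1) : ℕ) : ℝ) := by
                exact_mod_cast sum_cnt hqp hq5 e J N
              refine h3.trans ?_
              push_cast
              apply mul_le_mul_of_nonneg_left _ hJ0.le
              have := @Nat.cast_div_le ℝ _ _ _ N q
              linarith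
            have h4 : (1 : ℝ) ≤ N / q := by rw [le_div_iff₀ hqR]; linarith
            calc Real.log q * ((∑ M ∈ range N, cnt e J q M : ℕ) : ℝ)
                ≤ Real.log q * (J * (N / q + N / q)) := by
                  apply mul_le_mul_of_nonneg_left _ (Real.log_natCast_nonneg q)
                  refine h2.trans ?_
                  apply mul_le_mul_of_nonneg_left _ hJ0.le
                  linarith
              _ = 2 * J * N * (Real.log q / q) := by ring
        _ = 2 * J * N * ∑ q ∈ PQ z₂ \ PQ z₁, Real.log q / q := by rw [Finset.mul_sum]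
        _ ≤ 2 * J * N * (κ * L + C₂) := mul_le_mul_of_nonneg_left hdiff (by positivity)
    refine (markov N S₂ hS₂0 hT h1).trans ?_
    rw [div_le_iff₀ hT]
    have h5 : κ * L ≤ ε * τ / 24 * L := mul_le_mul_of_nonneg_right hκ2 hL0.le
    have h6 : C₂ ≤ ε * τ / 24 * L := by
      rw [div_le_iff₀ (by positivity)] at hL2
      linarith
    calc 2 * J * N * (κ * L + C₂) ≤ 2 * J * N * (ε * τ / 24 * L + ε * τ / 24 * L) := by
          apply mul_le_mul_of_nonneg_left _ (by positivity)
          linarith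
      _ = ε / 2 * N * (τ / 3 * J * L) := by ring
  refine ⟨(range N).filter (fun M => (τ / 3 * J * L) ^ 2 < D M ^ 2) ∪
    (range N).filter (fun M => τ / 3 * J * L < S₂ M), ?_, ?_⟩
  · have h1 := Finset.card_union_le ((range N).filter (fun M => (τ / 3 * J * L) ^ 2 < D M ^ 2))
      ((range N).filter (fun M => τ / 3 * J * L < S₂ M))
    have h2 : ((((range N).filter (fun M => (τ / 3 * J * L) ^ 2 < D M ^ 2)) ∪
        ((range N).filter (fun M => τ / 3 * J * L < S₂ M))).card : ℝ)
        ≤ (((range N).filter (fun M => (τ / 3 * J * L) ^ 2 < D M ^ 2)).card : ℝ)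
          + (((range N).filter (fun M => τ / 3 * J * L < S₂ M)).card : ℝ) := by
      exact_mod_cast h1
    linarith
  · intro M hM hMB
    rw [Finset.mem_union, not_or, Finset.mem_filter, Finset.mem_filter] at hMB
    obtain ⟨hn1, hn2⟩ := hMB
    have h1 : D M ^ 2 ≤ (τ / 3 * J * L) ^ 2 := by
      by_contra h
      exact hn1 ⟨Finset.mem_range.mpr hM, not_le.mp h⟩
    have h2 : S₂ M ≤ τ / 3 * J * L := by
      by_contra h
      exact hn2 ⟨Finset.mem_range.mpr hM, not_le.mp h⟩
    have h3 : D M ≤ τ / 3 * J * L := (abs_le_of_sq_le_sq' h1 hT.le).2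
    have h4 : sml e J M ((N : ℝ) ^ (1 / 2 + κ))
        = S₂ M + (D M + J * ∑ q ∈ PQ z₁, Real.log q / q) := by
      have h5 : D M + J * ∑ q ∈ PQ z₁, Real.log q / q
          = ∑ q ∈ PQ z₁, Real.log q * (cnt e J q M : ℝ) := by
        rw [hD, Finset.mul_sum, ← Finset.sum_add_distrib]
        refine Finset.sum_congr rfl fun q _ => ?_
        ring
      rw [h5]
      unfold sml
      exact (Finset.sum_sdiff hsub).symm
    rw [h4]
    have h6 : J * ∑ q ∈ PQ z₁, Real.log q / q ≤ J * (L / 2 + C₁) :=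
      mul_le_mul_of_nonneg_left hmean hJ0.le
    have h7 : C₁ ≤ τ / 3 * L := by
      rw [div_le_iff₀ hτ] at hL1
      linarith
    have h8 : J * C₁ ≤ J * (τ / 3 * L) := mul_le_mul_of_nonneg_left h7 hJ0.le
    calc S₂ M + (D M + J * ∑ q ∈ PQ z₁, Real.log q / q)
        ≤ τ / 3 * J * L + (τ / 3 * J * L + J * (L / 2 + C₁)) := by linarith
      _ = τ / 3 * J * L + τ / 3 * J * L + J * L / 2 + J * C₁ := by ring
      _ ≤ τ / 3 * J * L + τ / 3 * J * L + J * L / 2 + J * (τ / 3 * L) := by linarith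
      _ = (1 / 2 + τ) * J * L := by ring

end Pool.Agent.Y930.SF
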